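import Pool.Agent.N928.EA.Stm

/-!
# Consistency of the finite volume Gibbs kernels of the Edwards-Anderson model on a graph

Adapted from `Pool.Agent.H47R2.EA.BASIC` (the lattice).
-/

set_option autoImplicit false

open Pool.Agent.N928.EA

namespace Pool.Agent.N507.EA.TOW

variable {V : Type} {G : SimpleGraph V} [G.LocallyFinite]

theorem mem_edgesOf {Λ : Finset V} {e : Sym2 V} :
    e ∈ edgesOf G Λ ↔ ∃ x ∈ Λ, ∃ y, G.Adj x y ∧ s(x, y) = e := by
  classical
  unfold edgesOf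
  rw [Finset.mem_biUnion]
  constructor
  · rintro ⟨x, hx, h⟩
    rw [Finset.mem_image] at h
    obtain ⟨y, hy, h⟩ := h
    exact ⟨x, hx, y, by simpa using hy, h⟩
  · rintro ⟨x, hx, y, hy, h⟩
    refine ⟨x, hx, ?_⟩
    rw [Finset.mem_image]
    exact ⟨y, by simpa using hy, h⟩

theorem bond_mk (J : Coupling G) (σ : V → Bool) (x y : V) :
    bond G J σ s(x, y) = Jc G J x y * sg (σ x) * sg (σ y) := rfl

theorem edgesOf_mono {Λ' Λ : Finset V} (h : Λ' ⊆ Λ) : edgesOf G Λ' ⊆ edgesOf G Λ := by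
  intro e he
  rw [mem_edgesOf] at he ⊢
  obtain ⟨x, hx, y, hy, e1⟩ := he
  exact ⟨x, h hx, y, hy, e1⟩

theorem ham_diff (J : Coupling G) {Λ' Λ : Finset V} (h : Λ' ⊆ Λ) (σ σ' : V → Bool)
    (hs : ∀ z, z ∉ Λ' → σ z = σ' z) :
    ham G J Λ σ - ham G J Λ' σ = ham G J Λ σ' - ham G J Λ' σ' := by
  classical
  unfold ham
  have h1 := Finset.sum_sdiff (f := bond G J σ) (edgesOf_mono (G := G) h)
  have h2 := Finset.sum_sdiff (f := bond G J σ') (edgesOf_mono (G := G) h)
  have h3 : ∑ e ∈ edgesOf G Λ \ edgesOf G Λ', bond G J σ e =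
      ∑ e ∈ edgesOf G Λ \ edgesOf G Λ', bond G J σ' e := by
    apply Finset.sum_congr rfl
    intro e he
    rw [Finset.mem_sdiff] at he
    obtain ⟨x, hx, y, hy, rfl⟩ := mem_edgesOf.mp he.1
    have hx' : x ∉ Λ' := by
      intro hx'
      exact he.2 (mem_edgesOf.mpr ⟨x, hx', y, hy, rfl⟩)
    have hy' : y ∉ Λ' := by
      intro hy'
      exact he.2 (mem_edgesOf.mpr ⟨y, hy', x, hy.symm, Sym2.eq_swap⟩)
    rw [bond_mk, bond_mk, hs x hx', hs y hy']
  linarith

theorem glue_mem {Λ : Finset V} (η : Λ → Bool) (ω : V → Bool) {x : V} (h : x ∈ Λ) :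
    glue Λ η ω x = η ⟨x, h⟩ := by
  unfold glue
  rw [dif_pos h]

theorem glue_not_mem {Λ : Finset V} (η : Λ → Bool) (ω : V → Bool) {x : V}
    (h : x ∉ Λ) : glue Λ η ω x = ω x := by
  unfold glue
  rw [dif_neg h]

theorem glue_congr {Λ : Finset V} (η : Λ → Bool) (ω ω' : V → Bool)
    (h : ∀ z, z ∉ Λ → ω z = ω' z) : glue Λ η ω = glue Λ η ω' := by
  funext z
  by_cases hz : z ∈ Λ
  · rw [glue_mem η ω hz, glue_mem η ω' hz]
  · rw [glue_not_mem η ω hz, glue_not_mem η ω' hz, h z hz]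

theorem Zp_pos (β : ℝ) (J : Coupling G) (Λ : Finset V) (ω : V → Bool) :
    0 < Zp G β J Λ ω := by
  classical
  unfold Zp
  exact Finset.sum_pos (fun η _ => Real.exp_pos _) Finset.univ_nonempty

theorem Zp_congr (β : ℝ) (J : Coupling G) (Λ : Finset V) (ω ω' : V → Bool)
    (h : ∀ z, z ∉ Λ → ω z = ω' z) : Zp G β J Λ ω = Zp G β J Λ ω' := by
  unfold Zp
  apply Finset.sum_congr rfl
  intro η _
  rw [glue_congr η ω ω' h]

section consistency

variable {Λ Λ' : Finset V} (hsub : Λ' ⊆ Λ)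

open Classical in
/-- replace the values on the smaller set -/
noncomputable def md (η : Λ → Bool) (η' : Λ' → Bool) : Λ → Bool :=
  fun z => if h : z.1 ∈ Λ' then η' ⟨z.1, h⟩ else η z

/-- restriction to the smaller set -/
def rs (hsub : Λ' ⊆ Λ) (η : Λ → Bool) : Λ' → Bool := fun z => η ⟨z.1, hsub z.2⟩

theorem md_md (η : Λ → Bool) (η' : Λ' → Bool) : md (md η η') (rs hsub η) = η := by
  funext z
  unfold md rs
  by_cases h : z.1 ∈ Λ'
  · rw [dif_pos h]
  · rw [dif_neg h, dif_neg h]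

theorem rs_md (η : Λ → Bool) (η' : Λ' → Bool) : rs hsub (md η η') = η' := by
  funext z
  unfold rs md
  rw [dif_pos z.2]

/-- the involution of pairs -/
noncomputable def sw : Equiv.Perm ((Λ → Bool) × (Λ' → Bool)) :=
  Function.Involutive.toPerm (fun p => (md p.1 p.2, rs hsub p.1)) (by
    rintro ⟨η, η'⟩
    exact Prod.ext (md_md hsub η η') (rs_md hsub η η'))

include hsub in
theorem glue_md (η : Λ → Bool) (η' : Λ' → Bool) (ω : V → Bool) :
    glue Λ (md η η') ω = glue Λ' η' (glue Λ η ω) := by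
  funext z
  by_cases hz' : z ∈ Λ'
  · have hz := hsub hz'
    rw [glue_mem _ _ hz, glue_mem _ _ hz']
    unfold md
    rw [dif_pos hz']
  · rw [glue_not_mem _ _ hz']
    by_cases hz : z ∈ Λ
    · rw [glue_mem _ _ hz, glue_mem _ _ hz]
      unfold md
      rw [dif_neg hz']
    · rw [glue_not_mem _ _ hz, glue_not_mem _ _ hz]

theorem glue_rs (η : Λ → Bool) (η' : Λ' → Bool) (ω : V → Bool) :
    glue Λ' (rs hsub η) (glue Λ (md η η') ω) = glue Λ η ω := by
  rw [← glue_md hsub, md_md]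

include hsub in
theorem gE_cons (β : ℝ) (J : Coupling G) (ω : V → Bool) (f : (V → Bool) → ℝ) :
    gE G β J Λ ω f = gE G β J Λ ω (fun τ => gE G β J Λ' τ f) := by
  classical
  have key : ∑ η : Λ → Bool, Real.exp (β * ham G J Λ (glue Λ η ω)) * f (glue Λ η ω) =
      ∑ η : Λ → Bool, Real.exp (β * ham G J Λ (glue Λ η ω)) * gE G β J Λ' (glue Λ η ω) f := by
    symm
    let H : (Λ → Bool) × (Λ' → Bool) → ℝ := fun p =>
      Real.exp (β * ham G J Λ (glue Λ p.1 ω)) *
        (Real.exp (β * ham G J Λ' (glue Λ' p.2 (glue Λ p.1 ω))) *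
          f (glue Λ' p.2 (glue Λ p.1 ω))) / Zp G β J Λ' (glue Λ p.1 ω)
    have h1 : ∑ η : Λ → Bool, Real.exp (β * ham G J Λ (glue Λ η ω)) *
        gE G β J Λ' (glue Λ η ω) f = ∑ p : (Λ → Bool) × (Λ' → Bool), H p := by
      rw [Fintype.sum_prod_type]
      apply Finset.sum_congr rfl
      intro η _
      unfold gE
      rw [← mul_div_assoc, Finset.mul_sum, Finset.sum_div]
    rw [h1, ← Equiv.sum_comp (sw hsub) H, Fintype.sum_prod_type]
    apply Finset.sum_congr rfl
    intro η _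
    have h2 : ∀ η' : Λ' → Bool, H (sw hsub (η, η')) =
        Real.exp (β * ham G J Λ (glue Λ η ω)) * f (glue Λ η ω) / Zp G β J Λ' (glue Λ η ω) *
          Real.exp (β * ham G J Λ' (glue Λ' η' (glue Λ η ω))) := by
      intro η'
      show Real.exp (β * ham G J Λ (glue Λ (md η η') ω)) *
        (Real.exp (β * ham G J Λ' (glue Λ' (rs hsub η) (glue Λ (md η η') ω))) *
          f (glue Λ' (rs hsub η) (glue Λ (md η η') ω))) /
          Zp G β J Λ' (glue Λ (md η η') ω) = _
      rw [glue_rs, glue_md hsub]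
      have ho : ∀ z, z ∉ Λ' → glue Λ' η' (glue Λ η ω) z = glue Λ η ω z :=
        fun z hz => glue_not_mem _ _ hz
      rw [Zp_congr β J Λ' _ _ ho]
      have h3 := ham_diff J hsub _ _ ho
      have h4 : Real.exp (β * ham G J Λ (glue Λ' η' (glue Λ η ω))) *
          Real.exp (β * ham G J Λ' (glue Λ η ω)) =
          Real.exp (β * ham G J Λ (glue Λ η ω)) *
            Real.exp (β * ham G J Λ' (glue Λ' η' (glue Λ η ω))) := by
        rw [← Real.exp_add, ← Real.exp_add]
        congr 1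
        linear_combination β * h3
      rw [← mul_assoc, h4]
      ring
    rw [Finset.sum_congr rfl (fun η' _ => h2 η'), ← Finset.mul_sum]
    have h5 : ∑ η' : Λ' → Bool, Real.exp (β * ham G J Λ' (glue Λ' η' (glue Λ η ω))) =
        Zp G β J Λ' (glue Λ η ω) := by
      unfold Zp
      exact Finset.sum_congr (by ext; simp) fun _ _ => rfl
    rw [h5]
    exact div_mul_cancel₀ _ (Zp_pos β J Λ' _).ne'
  unfold gE at key ⊢
  congr 1

end consistency

theorem t_TOW : St_TOW := by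
  intro V G _ β J Λ Λ' h ω f
  exact (gE_cons h β J ω f).symm

end Pool.Agent.N507.EA.TOW
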